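import Pool.Agent.FreTensor.Main

/-!
Let `A` be a Fréchet algebra, `X` a flat left and `Y` a flat right Fréchet `A`-module. Then the
bimodule `X ⊗ Y` (completed projective tensor product, `a (x ⊗ y) b = a x ⊗ y b`) is flat in
`A-mod-A`, that is, flat as a left module over `A_+ ⊗ A_+^op`.
-/

set_option autoImplicit false

universe u

namespace Pool.Agent.Results.MP_9bb9cf_an.FlatTensorBimodule

open Pool.Agent.FreTensor

/-- For a flat left Fréchet module `X` and a flat right Fréchet module `Y` over a Fréchet algebra
`A`, the bimodule `X ⊗ Y` exists, and every model `M` of it is flat in `A-mod-A`. -/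
theorem result (A : FreAlg.{u}) (X : LMod A) (Y : RMod A) (hX : LFlat X) (hY : RFlat Y) :
    (∃ (M : BMod A) (m : X.V → Y.V → M.V), IsTensorBi X Y M m) ∧
      ∀ (M : BMod A) (m : X.V → Y.V → M.V), IsTensorBi X Y M m → BFlat M :=
  main_result A X Y hX hY

end Pool.Agent.Results.MP_9bb9cf_an.FlatTensorBimodule
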